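import Mathlib

namespace Pool.Agent.Results.MP_213d49_co.Sixteenth

open Finset

/-- every vertex outside `X` has a neighbour in `X` -/
def Dominating {V : Type} (G : SimpleGraph V) (X : Finset V) : Prop :=
  ∀ v, v ∉ X → ∃ x ∈ X, G.Adj x v

/-- `k`-minimal dominating set -/
def KMinimal {V : Type} [DecidableEq V] (G : SimpleGraph V) (k : ℕ) (X : Finset V) : Prop :=
  Dominating G X ∧ ∀ l, 1 ≤ l → l ≤ k → ∀ U : Finset V, U ⊆ X → U.card = l →
    ∀ R : Finset V, R.card = l - 1 → ¬ Dominating G ((X \ U) ∪ R)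

section
variable {V : Type} [Fintype V] [DecidableEq V]

def d (G : SimpleGraph V) (r v : V) : Prop := r = v ∨ G.Adj r v

def PN (G : SimpleGraph V) (X : Finset V) (x v : V) : Prop :=
  d G x v ∧ ∀ x' ∈ X, x' ≠ x → ¬ d G x' v

open Classical in
noncomputable def T (G : SimpleGraph V) (X : Finset V) (r : V) : Finset V :=
  X.filter (fun x => ∀ v, PN G X x v → d G r v)

open Classical in
noncomputable def own (G : SimpleGraph V) (X : Finset V) (v : V) : Finset V :=
  X.filter (fun x => PN G X x v)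

omit [Fintype V] [DecidableEq V] in
lemma own_le (G : SimpleGraph V) (X : Finset V) (v : V) : #(own G X v) ≤ 1 := by
  classical
  rw [card_le_one]
  intro a ha b hb
  simp only [own, mem_filter] at ha hb
  by_contra h
  exact hb.2.2 a ha.1 h ha.2.1

omit [Fintype V] [DecidableEq V] in
lemma dom_iff (G : SimpleGraph V) (X : Finset V) :
    Dominating G X ↔ ∀ v, ∃ x ∈ X, d G x v := by
  constructor
  · intro h v
    by_cases hv : v ∈ X
    · exact ⟨v, hv, Or.inl rfl⟩
    · obtain ⟨x, hx, h⟩ := h v hv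
      exact ⟨x, hx, Or.inr h⟩
  · intro h v hv
    obtain ⟨x, hx, h | h⟩ := h v
    · exact absurd (h ▸ hx) hv
    · exact ⟨x, hx, h⟩

def S (F F' : V → Finset V) : Finset (V × V) := univ.biUnion (fun v => F v ×ˢ F' v)

lemma mem_S {F F' : V → Finset V} {x y : V} (v : V) (h : x ∈ F v) (h' : y ∈ F' v) :
    (x, y) ∈ S F F' := mem_biUnion.2 ⟨v, mem_univ _, mem_product.2 ⟨h, h'⟩⟩

lemma card_S (F F' : V → Finset V) (a b : ℕ) (h : ∀ v, #(F v) ≤ a) (h' : ∀ v, #(F' v) ≤ b) :
    #(S F F') ≤ Fintype.card V * (a * b) := by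
  refine card_biUnion_le.trans ?_
  refine (sum_le_sum (g := fun _ => a * b) fun v _ => ?_).trans (by simp)
  rw [card_product]
  exact Nat.mul_le_mul (h v) (h' v)

lemma T_le (G : SimpleGraph V) (X : Finset V) (k : ℕ) (hk : 2 ≤ k) (h : KMinimal G k X) (m : ℕ)
    (hm : Fintype.card V ≤ m ^ 4) (r : V) : #(T G X r) ≤ 2 * m ^ 2 := by
  classical
  let F : V → Finset V := fun v => if #(X.filter (d G · v)) ≤ 2 then X.filter (d G · v) else ∅
  have hF : ∀ v, #(F v) ≤ 2 := by
    intro v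
    simp only [F]
    split_ifs with h
    · exact h
    · simp
  have hsub : (T G X r).offDiag ⊆ S F F := by
    rintro ⟨x, x'⟩ hx
    rw [mem_offDiag] at hx
    obtain ⟨hx, hx', hne⟩ := hx
    simp only [T, mem_filter] at hx hx' hne
    have h1 := h.2 2 (by omega) hk {x, x'} (by
      intro y hy
      simp only [mem_insert, mem_singleton] at hy
      rcases hy with rfl | rfl
      exacts [hx.1, hx'.1]) (card_pair hne) {r} (by simp)
    rw [dom_iff] at h1
    push Not at h1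
    obtain ⟨v, hv⟩ := h1
    have hr : ¬ d G r v := hv r (by simp)
    have ho : ∀ y ∈ X, y ≠ x → y ≠ x' → ¬ d G y v := fun y hy h1 h2 => hv y (by simp [hy, h1, h2])
    obtain ⟨y, hy, hyv⟩ := (dom_iff G X).1 h.1 v
    have e1 : d G x v := by
      by_contra hc
      apply hr
      apply hx'.2 v
      refine ⟨?_, fun z hz hz' => ?_⟩
      · by_contra hc'
        by_cases h1 : y = x
        · exact hc (h1 ▸ hyv)
        · by_cases h2 : y = x'
          · exact hc' (h2 ▸ hyv)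
          · exact ho y hy h1 h2 hyv
      · by_cases h1 : z = x
        · exact h1 ▸ hc
        · exact ho z hz h1 hz'
    have e2 : d G x' v := by
      by_contra hc
      apply hr
      apply hx.2 v
      refine ⟨e1, fun z hz hz' => ?_⟩
      by_cases h1 : z = x'
      · exact h1 ▸ hc
      · exact ho z hz hz' h1
    have hc : #(X.filter (d G · v)) ≤ 2 := by
      refine (card_le_card (t := {x, x'}) ?_).trans card_le_two
      intro z hz
      rw [mem_filter] at hz
      by_contra hc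
      simp only [mem_insert, mem_singleton, not_or] at hc
      exact ho z hz.1 hc.1 hc.2 hz.2
    refine mem_S v ?_ ?_
    · simp only [F, hc, if_true, mem_filter]
      exact ⟨hx.1, e1⟩
    · simp only [F, hc, if_true, mem_filter]
      exact ⟨hx'.1, e2⟩
  have h2 := (card_le_card hsub).trans (card_S F F 2 2 hF hF)
  rw [offDiag_card] at h2
  by_contra hc
  push Not at hc
  obtain ⟨t, ht⟩ : ∃ t, #(T G X r) = t + 1 := ⟨#(T G X r) - 1, by omega⟩
  have hV : 0 < Fintype.card V := Fintype.card_pos_iff.2 ⟨r⟩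
  rw [ht] at h2 hc
  have h3 : (t + 1) * (t + 1) - (t + 1) = (t + 1) * t := by
    rw [Nat.mul_succ]; omega
  rw [h3] at h2
  have h4 : (2 * m ^ 2 + 1) * (2 * m ^ 2) ≤ (t + 1) * t := Nat.mul_le_mul (by omega) (by omega)
  have hm0 : 0 < m := by
    rcases Nat.eq_zero_or_pos m with rfl | h
    · simp at hm; omega
    · exact h
  have : 0 < m ^ 2 := by positivity
  nlinarith

lemma notT {G : SimpleGraph V} {X : Finset V} {r x : V} (hx : x ∈ X) (h : x ∉ T G X r) :
    ∃ v, PN G X x v ∧ ¬ d G r v := by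
  classical
  simp only [T, mem_filter, not_and] at h
  have := h hx
  push Not at this
  exact this

omit [Fintype V] [DecidableEq V] in
lemma mem_own {G : SimpleGraph V} {X : Finset V} {v x : V} (hx : x ∈ X) (h : PN G X x v) :
    x ∈ own G X v := by
  classical
  exact mem_filter.2 ⟨hx, h⟩

lemma prod_le (A B : Finset V) (S1 S2 S3 S4 : Finset (V × V)) (c : ℕ) (h1 : #S1 ≤ c) (h2 : #S2 ≤ c)
    (h3 : #S3 ≤ c) (h4 : #S4 ≤ c)
    (h : ∀ x ∈ A, ∀ y ∈ B, (x, y) ∉ S1 → (x, y) ∉ S2 → (x, y) ∉ S3 → (x, y) ∈ S4) :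
    #A * #B ≤ 4 * c := by
  have : A ×ˢ B ⊆ S1 ∪ S2 ∪ S3 ∪ S4 := by
    rintro ⟨x, y⟩ hxy
    rw [mem_product] at hxy
    have := h x hxy.1 y hxy.2
    simp only [mem_union]
    tauto
  have h5 := card_le_card this
  rw [card_product] at h5
  have := card_union_le (S1 ∪ S2 ∪ S3) S4
  have := card_union_le (S1 ∪ S2) S3
  have := card_union_le S1 S2
  omega

open Classical in
omit [Fintype V] in
lemma P_ge (G : SimpleGraph V) (X A W : Finset V) (c : ℕ) (hA : A ⊆ X)
    (h : ∀ x ∈ A, c ≤ #(W.filter (PN G X x))) :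
    #A * c ≤ #(W.filter (fun v => ∃ x ∈ X, PN G X x v)) := by
  have h1 : #(A.biUnion (fun x => W.filter (PN G X x))) = ∑ x ∈ A, #(W.filter (PN G X x)) := by
    refine card_biUnion ?_
    intro x hx y hy hxy
    rw [Function.onFun, disjoint_left]
    intro v hv hv'
    rw [mem_filter] at hv hv'
    exact hv'.2.2 x (hA hx) hxy hv.2.1
  have h2 : A.biUnion (fun x => W.filter (PN G X x)) ⊆
      W.filter (fun v => ∃ x ∈ X, PN G X x v) := by
    intro v hv
    rw [mem_biUnion] at hv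
    obtain ⟨x, hx, hv⟩ := hv
    rw [mem_filter] at hv ⊢
    exact ⟨hv.1, x, hA hx, hv.2⟩
  have h3 := card_nsmul_le_sum A (fun x => #(W.filter (PN G X x))) c h
  rw [smul_eq_mul] at h3
  exact h3.trans (h1 ▸ card_le_card h2)

omit [Fintype V] in
lemma PN_ex (G : SimpleGraph V) (X : Finset V) (k : ℕ) (hk : 2 ≤ k) (h : KMinimal G k X) (x : V)
    (hx : x ∈ X) : ∃ v, PN G X x v := by
  have h1 := h.2 1 le_rfl (by omega) {x} (by simpa using hx) (by simp) ∅ (by simp)
  rw [dom_iff] at h1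
  push Not at h1
  obtain ⟨v, hv⟩ := h1
  have ho : ∀ y ∈ X, y ≠ x → ¬ d G y v := fun y hy h1 => hv y (by simp [hy, h1])
  obtain ⟨y, hy, hyv⟩ := (dom_iff G X).1 h.1 v
  refine ⟨v, ?_, ho⟩
  by_cases h1 : y = x
  · exact h1 ▸ hyv
  · exact absurd hyv (ho y hy h1)

lemma small {c a M : ℕ} (h : c * a ≤ M * M) (ha : M < a) : c ≤ M := by
  by_contra hc
  push Not at hc
  nlinarith

open Classical in
lemma count2 (G H : SimpleGraph V) (X Y : Finset V) (M : ℕ) (hXY : #(X ∩ Y) ≤ 2)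
    (h1 : #(X.filter (fun x => ∀ v, PN G X x v → v = x ∨ v ∈ Y ∨ ∃ y ∈ Y, PN H Y y v)) ≤ M)
    (h2 : #(Y.filter (fun y => ∀ v, PN H Y y v → v = y ∨ v ∈ X)) ≤ M) :
    2 * #X + 2 * #Y ≤ Fintype.card V + 2 * M + 2 := by
  set W := (X ∪ Y)ᶜ with hW
  have e1 := card_filter_add_card_filter_not (s := X)
    (fun x => ∀ v, PN G X x v → v = x ∨ v ∈ Y ∨ ∃ y ∈ Y, PN H Y y v)
  have e2 := card_filter_add_card_filter_not (s := Y) (fun y => ∀ v, PN H Y y v → v = y ∨ v ∈ X)
  have e3 := card_filter_add_card_filter_not (s := W) (fun v => ∃ y ∈ Y, PN H Y y v)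
  have e4 : #(X ∪ Y) + #W = Fintype.card V := card_add_card_compl _
  have e5 := card_union_add_card_inter X Y
  have a1 := P_ge G X (X.filter (fun x => ¬ ∀ v, PN G X x v → v = x ∨ v ∈ Y ∨ ∃ y ∈ Y, PN H Y y v))
    (W.filter (fun v => ¬ ∃ y ∈ Y, PN H Y y v)) 1 (filter_subset _ _) (by
      intro x hx
      rw [mem_filter] at hx
      obtain ⟨-, hx⟩ := hx
      rw [not_forall] at hx
      obtain ⟨v, hv⟩ := hx
      rw [Classical.not_imp, not_or, not_or] at hv
      refine card_pos.2 ⟨v, ?_⟩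
      simp only [mem_filter, hW, mem_compl, mem_union, not_or]
      exact ⟨⟨⟨fun h => hv.1.2 v h hv.2.1 (Or.inl rfl), hv.2.2.1⟩, hv.2.2.2⟩, hv.1⟩)
  have a2 := P_ge H Y (Y.filter (fun y => ¬ ∀ v, PN H Y y v → v = y ∨ v ∈ X)) W 1
    (filter_subset _ _) (by
      intro x hx
      rw [mem_filter] at hx
      obtain ⟨-, hx⟩ := hx
      rw [not_forall] at hx
      obtain ⟨v, hv⟩ := hx
      rw [Classical.not_imp, not_or] at hv
      refine card_pos.2 ⟨v, ?_⟩
      simp only [mem_filter, hW, mem_compl, mem_union, not_or]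
      exact ⟨⟨hv.2.2, fun h => hv.1.2 v h hv.2.1 (Or.inl rfl)⟩, hv.1⟩)
  have a3 := card_filter_le (W.filter (fun v => ¬ ∃ y ∈ Y, PN H Y y v))
    (fun v => ∃ x ∈ X, PN G X x v)
  omega

open Classical in
lemma P_two (G : SimpleGraph V) (X : Finset V) (M : ℕ) (hex : ∀ x ∈ X, ∃ v, PN G X x v)
    (h1 : #(X.filter (fun x => ∃ z, PN G X x z ∧ ∀ v, PN G X x v → v = z)) ≤ M) :
    2 * #X ≤ #(univ.filter (fun v => ∃ x ∈ X, PN G X x v)) + 2 * M := by
  have e1 := card_filter_add_card_filter_not (s := X)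
    (fun x => ∃ z, PN G X x z ∧ ∀ v, PN G X x v → v = z)
  have a1 := P_ge G X (X.filter (fun x => ¬ ∃ z, PN G X x z ∧ ∀ v, PN G X x v → v = z)) univ 2
    (filter_subset _ _) (by
      intro x hx
      rw [mem_filter] at hx
      obtain ⟨z, hz⟩ := hex x hx.1
      have h := hx.2
      push Not at h
      obtain ⟨v, hv, hne⟩ := h z hz
      exact one_lt_card.2 ⟨v, by simp [hv], z, by simp [hz], hne⟩)
  omega

variable (G H : SimpleGraph V) (hGH : ∀ u v, u ≠ v → (G.Adj u v ↔ ¬ H.Adj u v)) (X Y : Finset V)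
  (s : ℕ) (hs : 1 ≤ s) (hT : ∀ r, #(T G X r) ≤ s) (hT' : ∀ r, #(T H Y r) ≤ s)
include hGH hs hT hT'

lemma single (A : Finset V) (hA : ∀ x ∈ A, x ∈ X ∧ ∃ z, PN G X x z ∧ ∀ v, PN G X x v → v = z) :
    #A * #Y ≤ 4 * (Fintype.card V * s) := by
  classical
  have c1 := card_S (own G X) (T H Y) 1 s (own_le G X) hT'
  have c2 := card_S (T G X) (own H Y) s 1 hT (own_le H Y)
  rw [one_mul] at c1
  rw [mul_one] at c2
  refine prod_le A Y _ _ _ _ _ c1 c1 c1 c2 ?_
  intro x hx y hy h1 _ _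
  obtain ⟨hx, z, hz, hu⟩ := hA x hx
  obtain ⟨v, hv, hzv⟩ := notT (r := z) hy (fun h => h1 (mem_S z (mem_own hx hz) h))
  refine mem_S v ?_ (mem_own hy hv)
  simp only [T, mem_filter]
  refine ⟨hx, fun w hw => ?_⟩
  rw [hu w hw]
  simp only [d, not_or] at hzv
  exact Or.inr ((hGH z v hzv.1).2 hzv.2).symm

lemma bullet (B : Finset V) (hB : ∀ y ∈ B, y ∈ Y ∧ ∀ v, PN H Y y v → v = y ∨ v ∈ X) :
    #X * #B ≤ 4 * (Fintype.card V * s) := by
  classical
  have c1 := card_S (T G X) (fun v => {v}) s 1 hT (by simp)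
  have c2 := card_S (fun v => {v}) (T H Y) 1 s (by simp) hT'
  have c3 := card_S (own G X) (T H Y) 1 s (own_le G X) hT'
  have c4 := card_S (fun v => {v}) (own H Y) 1 s (by simp) (fun v => (own_le H Y v).trans hs)
  rw [mul_one] at c1
  rw [one_mul] at c2 c3 c4
  refine prod_le X B _ _ _ _ _ c1 c2 c3 c4 ?_
  intro x hx y hy h1 h2 h3
  obtain ⟨hy, hu⟩ := hB y hy
  obtain ⟨q, hq, hyq⟩ := notT (r := y) hx (fun h => h1 (mem_S y h (by simp)))
  obtain ⟨w, hw, hqw⟩ := notT (r := q) hy (fun h => h3 (mem_S q (mem_own hx hq) h))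
  simp only [d, not_or] at hyq hqw
  have hadj : G.Adj q w := (hGH q w hqw.1).2 hqw.2
  rcases hu w hw with rfl | hwX
  · exact absurd hadj.symm hyq.2
  · have : w = x := by
      by_contra hc
      exact hq.2 w hwX hc (Or.inr hadj.symm)
    subst this
    exact mem_S w (by simp) (mem_own hy hw)

lemma circ (A B : Finset V)
    (hA : ∀ x ∈ A, x ∈ X ∧ ∀ v, PN G X x v → v = x ∨ v ∈ Y ∨ ∃ y ∈ Y, PN H Y y v)
    (hB : ∀ y ∈ B, y ∈ Y ∧ ∀ v, PN H Y y v → v = y ∨ v ∈ X ∨ ∃ x ∈ X, PN G X x v) :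
    #A * #B ≤ 4 * (Fintype.card V * s) := by
  classical
  have c1 := card_S (T G X) (fun v => {v}) s 1 hT (by simp)
  have c2 := card_S (fun v => {v}) (T H Y) 1 s (by simp) hT'
  have c4 := card_S (own G X) (own H Y) 1 s (own_le G X) (fun v => (own_le H Y v).trans hs)
  rw [mul_one] at c1
  rw [one_mul] at c2 c4
  refine prod_le A B _ _ _ _ _ c1 c2 c2 c4 ?_
  intro x hx y hy h1 h2 _
  obtain ⟨hx, ha⟩ := hA x hx
  obtain ⟨hy, hb⟩ := hB y hy
  obtain ⟨v, hv, hyv⟩ := notT (r := y) hx (fun h => h1 (mem_S y h (by simp)))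
  obtain ⟨w, hw, hxw⟩ := notT (r := x) hy (fun h => h2 (mem_S x (by simp) h))
  simp only [d, not_or] at hyv hxw
  have a1 : G.Adj x w := (hGH x w hxw.1).2 hxw.2
  have a2 : H.Adj y v := by
    by_contra hc
    exact hyv.2 ((hGH y v hyv.1).2 hc)
  by_cases p1 : ∃ y' ∈ Y, PN H Y y' v
  · obtain ⟨y', hy', hp⟩ := p1
    have : y = y' := by
      by_contra hc
      exact hp.2 y hy hc (Or.inr a2)
    subst this
    exact mem_S v (mem_own hx hv) (mem_own hy hp)
  by_cases p2 : ∃ x' ∈ X, PN G X x' w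
  · obtain ⟨x', hx', hp⟩ := p2
    have : x = x' := by
      by_contra hc
      exact hp.2 x hx hc (Or.inr a1)
    subst this
    exact mem_S w (mem_own hx hp) (mem_own hy hw)
  exfalso
  rcases ha v hv with rfl | hvY | h
  · rcases hb w hw with rfl | hwX | h
    · exact hyv.2 a1.symm
    · exact hv.2 w hwX a1.ne' (Or.inr a1.symm)
    · exact p2 h
  · rcases hb w hw with rfl | hwX | h
    · exact hw.2 v hvY a2.ne' (Or.inr a2.symm)
    · have n1 := hv.2 w hwX a1.ne'
      have n2 := hw.2 v hvY a2.ne'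
      simp only [d, not_or] at n1 n2
      exact n1.2 ((hGH v w n2.1).2 n2.2).symm
    · exact p2 h
  · exact p1 h

end

lemma upper {V : Type} [Fintype V] [DecidableEq V] (G : SimpleGraph V) (k : ℕ) (hk : 2 ≤ k)
    (X Y : Finset V) (hX : KMinimal G k X) (hY : KMinimal Gᶜ k Y) (m : ℕ)
    (hm : Fintype.card V ≤ m ^ 4) : 16 * (#X * #Y) ≤ (Fintype.card V + 24 * m ^ 3 + 2) ^ 2 := by
  classical
  have hGH : ∀ u v, u ≠ v → (G.Adj u v ↔ ¬ Gᶜ.Adj u v) := by
    intro u v h
    simp [h]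
  have hHG : ∀ u v, u ≠ v → (Gᶜ.Adj u v ↔ ¬ G.Adj u v) := by
    intro u v h
    simp [h]
  have ha := card_le_univ X
  have hb := card_le_univ Y
  set n := Fintype.card V with hn
  obtain ⟨M, hM⟩ : ∃ M, M = 3 * m ^ 3 := ⟨_, rfl⟩
  have e24 : 24 * m ^ 3 = 8 * M := by omega
  rw [e24]
  by_cases c1 : #X ≤ M
  · have := Nat.mul_le_mul c1 hb
    nlinarith
  by_cases c2 : #Y ≤ M
  · have := Nat.mul_le_mul ha c2
    nlinarith
  push Not at c1 c2
  have hm0 : 0 < m := by
    rcases Nat.eq_zero_or_pos m with rfl | h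
    · simp at hm; omega
    · exact h
  have hs : 1 ≤ 2 * m ^ 2 := by
    have : 0 < m ^ 2 := by positivity
    omega
  have hT := T_le G X k hk hX m hm
  have hT' := T_le Gᶜ Y k hk hY m hm
  have hK : 4 * (n * (2 * m ^ 2)) ≤ M * M := by
    have := Nat.mul_le_mul_right (2 * m ^ 2) hm
    rw [hM]
    nlinarith [Nat.zero_le (m ^ 6)]
  suffices h : 2 * #X + 2 * #Y ≤ n + 4 * M + 2 by
    have h2 : (2 * #X + 2 * #Y) ^ 2 ≤ (n + 8 * M + 2) ^ 2 := Nat.pow_le_pow_left (by omega) 2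
    have h3 : 16 * (#X * #Y) ≤ (2 * #X + 2 * #Y) ^ 2 := by
      zify
      nlinarith [sq_nonneg ((#X : ℤ) - #Y)]
    omega
  by_cases hXY : #(X ∩ Y) ≤ 2
  · have b1 := bullet G Gᶜ hGH X Y _ hs hT hT'
      (Y.filter (fun y => ∀ v, PN Gᶜ Y y v → v = y ∨ v ∈ X)) (fun y hy => mem_filter.1 hy)
    have b2 := bullet Gᶜ G hHG Y X _ hs hT' hT
      (X.filter (fun y => ∀ v, PN G X y v → v = y ∨ v ∈ Y)) (fun y hy => mem_filter.1 hy)
    have b3 := circ G Gᶜ hGH X Y _ hs hT hT'
      (X.filter (fun x => ∀ v, PN G X x v → v = x ∨ v ∈ Y ∨ ∃ y ∈ Y, PN Gᶜ Y y v))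
      (Y.filter (fun x => ∀ v, PN Gᶜ Y x v → v = x ∨ v ∈ X ∨ ∃ y ∈ X, PN G X y v))
      (fun y hy => mem_filter.1 hy) (fun y hy => mem_filter.1 hy)
    rw [mul_comm] at b1 b2
    have s1 := small (b1.trans hK) c1
    have s2 := small (b2.trans hK) c2
    by_cases c3 : #(Y.filter
        (fun x => ∀ v, PN Gᶜ Y x v → v = x ∨ v ∈ X ∨ ∃ y ∈ X, PN G X y v)) ≤ M
    · have := count2 Gᶜ G Y X M (by rwa [inter_comm]) (by convert c3) (by convert s2)
      omega
    · push Not at c3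
      have s3 := small (b3.trans hK) c3
      have := count2 G Gᶜ X Y M hXY (by convert s3) (by convert s1)
      omega
  · have b1 := single G Gᶜ hGH X Y _ hs hT hT'
      (X.filter (fun x => ∃ z, PN G X x z ∧ ∀ v, PN G X x v → v = z)) (fun y hy => mem_filter.1 hy)
    have b2 := single Gᶜ G hHG Y X _ hs hT' hT
      (Y.filter (fun x => ∃ z, PN Gᶜ Y x z ∧ ∀ v, PN Gᶜ Y x v → v = z))
      (fun y hy => mem_filter.1 hy)
    have s1 := small (b1.trans hK) c2
    have s2 := small (b2.trans hK) c1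
    have p1 := P_two G X M (PN_ex G X k hk hX) (by convert s1)
    have p2 := P_two Gᶜ Y M (PN_ex Gᶜ Y k hk hY) (by convert s2)
    have hd : Disjoint (univ.filter (fun v => ∃ x ∈ X, PN G X x v))
        (univ.filter (fun v => ∃ x ∈ Y, PN Gᶜ Y x v)) := by
      rw [disjoint_left]
      intro v hv hv'
      rw [mem_filter] at hv hv'
      obtain ⟨-, x, -, hx⟩ := hv
      obtain ⟨-, y, -, hy⟩ := hv'
      have : ¬ X ∩ Y ⊆ {x, y} := fun h => hXY ((card_le_card h).trans card_le_two)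
      rw [not_subset] at this
      obtain ⟨u, hu, hu'⟩ := this
      simp only [mem_insert, mem_singleton, not_or, mem_inter] at hu hu'
      have n1 := hx.2 u hu.1 hu'.1
      have n2 := hy.2 u hu.2 hu'.2
      simp only [d, not_or] at n1 n2
      exact n1.2 ((hGH u v n1.1).2 n2.2)
    have := card_union_of_disjoint hd
    have h2 := card_le_univ (univ.filter (fun v => ∃ x ∈ X, PN G X x v) ∪
        univ.filter (fun v => ∃ x ∈ Y, PN Gᶜ Y x v))
    have e1 : 2 * #X ≤ #(univ.filter (fun v => ∃ x ∈ X, PN G X x v)) + 2 * M := by convert p1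
    have e2 : 2 * #Y ≤ #(univ.filter (fun v => ∃ x ∈ Y, PN Gᶜ Y x v)) + 2 * M := by convert p2
    omega

lemma kmin2 {V : Type} [DecidableEq V] (G : SimpleGraph V) (X : Finset V) (hdom : Dominating G X)
    (hind : ∀ x ∈ X, ∀ x' ∈ X, ¬ G.Adj x' x)
    (hpair : ∀ x ∈ X, ∀ x' ∈ X, x ≠ x' → ∀ r, ∃ v, ¬ d G r v ∧
      ∀ u ∈ X, u ≠ x → u ≠ x' → ¬ d G u v) : KMinimal G 2 X := by
  refine ⟨hdom, fun l h1 h2 U hU hc R hR hd => ?_⟩
  obtain rfl | rfl : l = 1 ∨ l = 2 := by omega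
  · obtain ⟨x, rfl⟩ := card_eq_one.1 hc
    obtain rfl := card_eq_zero.1 hR
    obtain ⟨u, hu, h⟩ := hd x (by simp)
    simp only [union_empty, mem_sdiff] at hu
    exact hind x (hU (by simp)) u hu.1 h
  · obtain ⟨x, x', hne, rfl⟩ := card_eq_two.1 hc
    obtain ⟨r, rfl⟩ := card_eq_one.1 hR
    obtain ⟨v, hv, ho⟩ := hpair x (hU (by simp)) x' (hU (by simp)) hne r
    obtain ⟨u, hu, h⟩ := (dom_iff G _).1 hd v
    simp only [mem_union, mem_sdiff, mem_insert, mem_singleton, not_or] at hu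
    rcases hu with hu | rfl
    · exact ho u hu.1 hu.2.1 hu.2.2 h
    · exact hv h

open Sum in
def A {q t : ℕ} (f : Fin t → Fin q) :
    (Fin q ⊕ Fin q) ⊕ (Fin q ⊕ Fin t) → (Fin q ⊕ Fin q) ⊕ (Fin q ⊕ Fin t) → Prop
  | inl (inl _), inl (inl _) => False
  | inl (inl a), inl (inr b) => a ≠ b
  | inl (inl a), inr (inl b) => a = b
  | inl (inl a), inr (inr j) => f j = a
  | inl (inr a), inl (inl b) => a ≠ b
  | inl (inr a), inl (inr b) => a ≠ b
  | inl (inr a), inr (inl b) => a ≠ b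
  | inl (inr _), inr (inr _) => False
  | inr (inl a), inl (inl b) => a = b
  | inr (inl a), inl (inr b) => a ≠ b
  | inr (inl a), inr (inl b) => a ≠ b
  | inr (inl _), inr (inr _) => True
  | inr (inr j), inl (inl b) => f j = b
  | inr (inr _), inl (inr _) => False
  | inr (inr _), inr (inl _) => True
  | inr (inr _), inr (inr _) => False

def GA {q t : ℕ} (f : Fin t → Fin q) : SimpleGraph ((Fin q ⊕ Fin q) ⊕ (Fin q ⊕ Fin t)) where
  Adj := A f
  symm := ⟨by rintro ((a | a) | (a | a)) ((b | b) | (b | b)) <;> simp [A, eq_comm, ne_comm]⟩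
  loopless := ⟨by rintro ((a | a) | (a | a)) <;> simp [A]⟩

open Sum in
lemma lowerX {q t : ℕ} (hq : 2 ≤ q) (f : Fin t → Fin q) (hf : Function.Surjective f) :
    KMinimal (GA f) 2 (univ.image (fun a : Fin q => inl (inl a))) := by
  haveI : Nontrivial (Fin q) := Fin.nontrivial_iff_two_le.2 hq
  refine kmin2 _ _ ?_ ?_ ?_
  · rintro ((a | a) | (a | a)) h
    · simp at h
    · obtain ⟨b, hb⟩ := exists_ne a
      exact ⟨inl (inl b), by simp, hb⟩
    · exact ⟨inl (inl a), by simp, rfl⟩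
    · exact ⟨inl (inl (f a)), by simp, rfl⟩
  · simp [GA, A]
  · simp only [mem_image, mem_univ, true_and, forall_exists_index, forall_apply_eq_imp_iff]
    intro a b hab r
    have hab' : a ≠ b := fun h => hab (by rw [h])
    have ha : ∀ c : Fin q, ¬ c = a ∨ ¬ c = b := fun c => by
      by_contra h
      push Not at h
      exact hab' (h.1.symm.trans h.2)
    rcases r with (c | c) | (c | c)
    · rcases ha c with h | h
      · exact ⟨inl (inl a), by simp [d, GA, A, h], by simp [d, GA, A]; tauto⟩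
      · exact ⟨inl (inl b), by simp [d, GA, A, h], by simp [d, GA, A]⟩
    · obtain ⟨j, rfl⟩ := hf a
      exact ⟨inr (inr j), by simp [d, GA, A], by simp [d, GA, A, eq_comm]; tauto⟩
    · rcases ha c with h | h
      · exact ⟨inl (inl a), by simp [d, GA, A, h], by simp [d, GA, A]; tauto⟩
      · exact ⟨inl (inl b), by simp [d, GA, A, h], by simp [d, GA, A]⟩
    · rcases ha (f c) with h | h
      · exact ⟨inl (inl a), by simp [d, GA, A, h], by simp [d, GA, A]; tauto⟩
      · exact ⟨inl (inl b), by simp [d, GA, A, h], by simp [d, GA, A]⟩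

open Sum in
lemma lowerY {q t : ℕ} (hq : 2 ≤ q) (f : Fin t → Fin q) :
    KMinimal (GA f)ᶜ 2 (univ.image (fun a : Fin q => inl (inr a))) := by
  refine kmin2 _ _ ?_ ?_ ?_
  · rintro ((a | a) | (a | a)) h
    · exact ⟨inl (inr a), by simp, by simp [GA, A]⟩
    · simp at h
    · exact ⟨inl (inr a), by simp, by simp [GA, A]⟩
    · exact ⟨inl (inr ⟨0, by omega⟩), by simp, by simp [GA, A]⟩
  · simp [GA, A]
  · simp only [mem_image, mem_univ, true_and, forall_exists_index, forall_apply_eq_imp_iff]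
    intro a b hab r
    have hab' : a ≠ b := fun h => hab (by rw [h])
    have ha : ∀ c : Fin q, ¬ c = a ∨ ¬ c = b := fun c => by
      by_contra h
      push Not at h
      exact hab' (h.1.symm.trans h.2)
    rcases r with (c | c) | (c | c)
    · rcases ha c with h | h
      · exact ⟨inl (inr a), by simp [d, GA, A, h], by simp [d, GA, A]; tauto⟩
      · exact ⟨inl (inr b), by simp [d, GA, A, h], by simp [d, GA, A]⟩
    · rcases ha c with h | h
      · exact ⟨inl (inr a), by simp [d, GA, A, h], by simp [d, GA, A]; tauto⟩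
      · exact ⟨inl (inr b), by simp [d, GA, A, h], by simp [d, GA, A]⟩
    · rcases ha c with h | h
      · exact ⟨inl (inr a), by simp [d, GA, A, h], by simp [d, GA, A]; tauto⟩
      · exact ⟨inl (inr b), by simp [d, GA, A, h], by simp [d, GA, A]⟩
    · exact ⟨inr (inl a), by simp [d, GA, A], by simp [d, GA, A]; tauto⟩

theorem result :
    (∀ (V : Type) [Fintype V] [DecidableEq V] (G : SimpleGraph V) (k : ℕ), 2 ≤ k →
      ∀ X Y : Finset V, KMinimal G k X → KMinimal Gᶜ k Y → ∀ m : ℕ, Fintype.card V ≤ m ^ 4 →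
        16 * (X.card * Y.card) ≤ (Fintype.card V + 24 * m ^ 3 + 2) ^ 2) ∧
    (∀ n : ℕ, 8 ≤ n → ∃ (V : Type) (_ : Fintype V) (_ : DecidableEq V) (G : SimpleGraph V)
      (X Y : Finset V), Fintype.card V = n ∧ KMinimal G 2 X ∧ KMinimal Gᶜ 2 Y ∧
        X.card = n / 4 ∧ Y.card = n / 4) := by
  refine ⟨fun V _ _ G k hk X Y hX hY m hm => upper G k hk X Y hX hY m hm, fun n hn => ?_⟩
  have hq : 2 ≤ n / 4 := by omega
  let f : Fin (n - 3 * (n / 4)) → Fin (n / 4) := fun j =>
    if h : j.1 < n / 4 then ⟨j.1, h⟩ else ⟨0, by omega⟩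
  have hf : Function.Surjective f := by
    intro a
    refine ⟨⟨a.1, by have := a.2; omega⟩, ?_⟩
    simp [f]
  refine ⟨_, inferInstance, inferInstance, GA f, _, _, ?_, lowerX hq f hf, lowerY hq f, ?_, ?_⟩
  · simp only [Fintype.card_sum, Fintype.card_fin]
    omega
  · rw [card_image_of_injective _ (fun a b h => by simpa using h)]
    simp
  · rw [card_image_of_injective _ (fun a b h => by simpa using h)]
    simp

end Pool.Agent.Results.MP_213d49_co.Sixteenth
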